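import Pool.Agent.Helper99.ChordlessBorel

/-!
# MP_cc4ad1_lc: Borel graphs whose chordless cycles are controlled contain Borel treeings

`X` is a standard Borel space and `G` is a Borel graph on `X` whose connectedness relation is
countable, given (as is always possible by the Lusin-Novikov theorem) by countably many Borel maps
`f n : X → X` enumerating the components. A chordless cycle of length `m` is an embedding (as an
induced subgraph) of the cycle graph on `m` vertices.
-/

namespace Pool.Agent.Results.MP_cc4ad1_lc.ChordlessCycles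

open SimpleGraph MeasureTheory Pool.Agent.Helper99.Treeing

/-- `G` contains a Borel treeing of its connectedness relation. -/
def HasBorelSubtreeing {X : Type*} [MeasurableSpace X] (G : SimpleGraph X) : Prop :=
  ∃ T : SimpleGraph X, T ≤ G ∧ MeasurableSet {q : X × X | T.Adj q.1 q.2} ∧ T.IsAcyclic ∧
    ∀ x y, T.Reachable x y ↔ G.Reachable x y

/-- The set of the points lying with `x` on a chordless cycle of length at least four. -/
def cyclesThrough {X : Type*} (G : SimpleGraph X) (x : X) : Set X :=
  {y | ∃ m, 4 ≤ m ∧ ∃ e : cycleGraph m ↪g G, (∃ i, e i = x) ∧ ∃ j, e j = y}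

theorem result {X : Type*} [MeasurableSpace X] [StandardBorelSpace X]
    (G : SimpleGraph X) (hG : MeasurableSet {q : X × X | G.Adj q.1 q.2})
    (f : ℕ → X → X) (hf : ∀ n, Measurable (f n))
    (hGf : ∀ x y, G.Reachable x y ↔ ∃ n, f n x = y) :
    -- (a) a Borel rank function, different on adjacent points, whose maximum on every chordless
    -- cycle of length at least four is attained only once
    ((∃ p : X → ℕ, Measurable p ∧ (∀ x y, G.Adj x y → p x ≠ p y) ∧
      ∀ m, 4 ≤ m → ∀ e : cycleGraph m ↪g G, ∀ i j, (∀ k, p (e k) ≤ p (e i)) →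
        (∀ k, p (e k) ≤ p (e j)) → i = j) → HasBorelSubtreeing G) ∧
    -- (b) `G` is locally finite, and through every point there pass chordless cycles on only
    -- finitely many points
    ((∀ x, {y | G.Adj x y}.Finite) → (∀ x, (cyclesThrough G x).Finite) →
      HasBorelSubtreeing G) ∧
    -- (c) `G` is locally finite and its chordless cycles have bounded length
    (∀ k : ℕ, (∀ x, {y | G.Adj x y}.Finite) → (∀ m, Nonempty (cycleGraph m ↪g G) → m ≤ k) →
      HasBorelSubtreeing G) := by
  have hfE : ∀ x y, G.Reachable x y → ∃ n, f n x = y := fun x y h => (hGf x y).1 h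
  have hGm : MGraph G := measurableSet_setOfPred.1 hG
  have ha : (∃ p : X → ℕ, Measurable p ∧ (∀ x y, G.Adj x y → p x ≠ p y) ∧
      ∀ m, 4 ≤ m → ∀ e : cycleGraph m ↪g G, ∀ i j, (∀ k, p (e k) ≤ p (e i)) →
        (∀ k, p (e k) ≤ p (e j)) → i = j) → HasBorelSubtreeing G := by
    rintro ⟨p, hp, hadj, htop⟩
    exact ⟨forest G p f, forest_le, measurableSet_setOfPred.2 (measurable_forest hGm hp hf hfE),
      forest_acyclic hadj htop, forest_reach hadj hfE⟩
  have hb : (∀ x, {y | G.Adj x y}.Finite) → (∀ x, (cyclesThrough G x).Finite) →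
      HasBorelSubtreeing G := by
    intro hfin hcyc
    let P : X → X → Prop := fun x y => G.Adj x y ∨ OnCycle G x y
    have hPm : Measurable fun q : X × X => P q.1 q.2 :=
      Measurable.or hGm (measurable_onCycle hGm hf hfE)
    have hPr : ∀ u v, P u v → ∃ n, f n u = v := by
      rintro u v (h | h)
      · exact hfE u v h.reachable
      · exact hfE u v (onCycle_reach h)
    have hPfin : ∀ x, {y | P x y}.Finite := by
      intro x
      have : {y | P x y} = {y | G.Adj x y} ∪ cyclesThrough G x := rfl
      rw [this]
      exact (hfin x).union (hcyc x)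
    obtain ⟨p, hp, hne⟩ := exists_colouring hPm hf hPr hPfin
    refine ha ⟨p, hp, fun x y h => hne x y (Or.inl h) h.ne, ?_⟩
    intro m hm e i j hi hj
    by_contra hij
    have h1 : e i ≠ e j := fun h => hij (e.injective h)
    exact hne (e i) (e j) (Or.inr ⟨m, hm, e, ⟨i, rfl⟩, ⟨j, rfl⟩⟩) h1 (le_antisymm (hj i) (hi j))
  refine ⟨ha, hb, ?_⟩
  intro k hfin hk
  refine hb hfin ?_
  intro x
  -- balls are finite
  have hball : ∀ n : ℕ, {y | ∃ w : G.Walk x y, w.length ≤ n}.Finite := by
    intro n
    induction n with
    | zero =>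
      refine (Set.finite_singleton x).subset ?_
      rintro y ⟨w, hw⟩
      exact (Walk.eq_of_length_eq_zero (Nat.le_zero.1 hw)).symm
    | succ n ih =>
      refine (ih.union (ih.biUnion fun z _ => hfin z)).subset ?_
      rintro y ⟨w, hw⟩
      rcases Nat.lt_or_ge w.length (n + 1) with h | h
      · exact Or.inl ⟨w, by omega⟩
      · right
        have hlen : w.length = n + 1 := le_antisymm hw h
        simp only [Set.mem_iUnion, exists_prop]
        refine ⟨w.getVert n, ⟨w.take n, ?_⟩, ?_⟩
        · rw [Walk.take_length]; omega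
        · have := w.adj_getVert_succ (i := n) (by omega)
          rw [← hlen, Walk.getVert_length] at this
          exact this
  refine (hball k).subset ?_
  rintro y ⟨m, hm, e, ⟨i, rfl⟩, ⟨j, rfl⟩⟩
  have hmk := hk m ⟨e⟩
  obtain ⟨n, rfl⟩ : ∃ n, m = n + 1 := ⟨m - 1, by omega⟩
  obtain ⟨w, hw⟩ := (cycleGraph_connected.preconnected i j).exists_isPath
  refine ⟨w.map e.toHom, ?_⟩
  rw [Walk.length_map]
  have := hw.length_lt
  rw [Fintype.card_fin] at this
  omega

end Pool.Agent.Results.MP_cc4ad1_lc.ChordlessCycles
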