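import Pool.Agent.Helper3.CA.Cluster

/-!
# MP_cc4ad1_lc: graphs glued together along cliques

`G` is a Borel graph on a standard Borel space `X`. A Borel tree decomposition of `G` has a Borel
forest `S` on a standard Borel space `Y` of nodes; every node `y` has a countable part
`{x | In x y}`, which may be infinite. Two different common points of neighbouring parts are
adjacent in `G`, unless the two nodes lie in one cluster. The clusters are connected sets of nodes,
and the Borel map `π` maps every node to the base of its cluster. (Without clusters: `π = id`, and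
`G` is a tree-like gluing of arbitrary countable graphs along cliques of arbitrary size.)
-/

namespace Pool.Agent.Results.MP_cc4ad1_lc.CliqueAdhesion

open SimpleGraph MeasureTheory

variable {X Y : Type*}

/-- A Borel tree decomposition of `G`, the nodes being grouped in clusters with base map `π`, such
that the common points of neighbouring parts of different clusters form a clique of `G`. -/
structure CliqueDecomposition [MeasurableSpace X] [MeasurableSpace Y] (G : SimpleGraph X)
    (S : SimpleGraph Y) (In : X → Y → Prop) (π : Y → Y) : Prop where
  /-- `S` is Borel. -/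
  borel : MeasurableSet {q : Y × Y | S.Adj q.1 q.2}
  /-- `S` is a forest. -/
  acyclic : S.IsAcyclic
  /-- every node has countably many neighbours, given by Borel maps -/
  nbrs : ∃ s : ℕ → Y → Y, (∀ n, Measurable (s n)) ∧ ∀ y z, S.Adj y z → ∃ n, s n y = z
  /-- every point lies in countably many parts, given by Borel maps -/
  nodes : ∃ g : ℕ → X → Y, (∀ n, Measurable (g n)) ∧ ∀ x y, In x y ↔ ∃ n, g n x = y
  /-- every part is countable, given by Borel maps -/
  points : ∃ c : ℕ → Y → X, (∀ n, Measurable (c n)) ∧ ∀ x y, In x y → ∃ n, c n y = x
  /-- every edge of `G` lies in a part -/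
  edge : ∀ u v, G.Adj u v → ∃ y, In u y ∧ In v y
  /-- the nodes whose parts contain a given point form a subtree -/
  subtree : ∀ x, (S.induce {y | In x y}).Connected
  /-- `π` is Borel and maps every node to a fixed point, the base of its cluster -/
  base : Measurable π ∧ ∀ y, π (π y) = π y
  /-- the clusters are connected -/
  cluster : ∀ y, (S.induce {z | π z = π y}).Connected
  /-- two different common points of neighbouring parts of different clusters are adjacent -/
  clique : ∀ y z, S.Adj y z → π y ≠ π z → ∀ u v, In u y → In u z → In v y → In v z → u ≠ v →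
    G.Adj u v

theorem result [MeasurableSpace X] [StandardBorelSpace X] [MeasurableSpace Y]
    [StandardBorelSpace Y] (G : SimpleGraph X) (hG : MeasurableSet {q : X × X | G.Adj q.1 q.2})
    (S : SimpleGraph Y) (In : X → Y → Prop) (π : Y → Y) (h : CliqueDecomposition G S In π) :
    ∃ T : SimpleGraph X, MeasurableSet {q : X × X | T.Adj q.1 q.2} ∧ T.IsAcyclic ∧ T ≤ G ∧
      ∀ x y, T.Reachable x y ↔ G.Reachable x y := by
  obtain ⟨s, hs, hs'⟩ := h.nbrs
  obtain ⟨g, hg, hg'⟩ := h.nodes
  obtain ⟨c, hc, hc'⟩ := h.points
  refine Pool.Agent.Helper3.CA.main' G hG S h.borel h.acyclic In s hs hs' g hg hg' c hc hc' h.edge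
    (fun x => (h.subtree x).preconnected) π h.base.1 h.base.2 ?_ h.clique
  intro a
  by_cases ha : ∃ y, π y = a
  · obtain ⟨y, rfl⟩ := ha
    exact (h.cluster y).preconnected
  · rintro ⟨z, hz⟩
    exact absurd ⟨z, hz⟩ ha

end Pool.Agent.Results.MP_cc4ad1_lc.CliqueAdhesion
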