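import Pool.Agent.Helper99.TreeingBorel
import Pool.Agent.Helper99.TreeingTame

/-!
# MP_cc4ad1_lc: a local criterion for Borel treeings inside graphings

`X` is a standard Borel space, `E` is a countable Borel equivalence relation on `X`, given (as is
always possible by the Lusin-Novikov theorem) by countably many Borel maps `f n : X → X` with
`E x y ↔ ∃ n, f n x = y`, and `G` is a Borel graphing of `E`.

A pair `u, v` is *tame* for `T₀` and `G` if it lies in a finite set on which both `T₀` and `G`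
induce connected graphs. The theorem: `G` contains a Borel treeing of `E` if and only if there is
a Borel treeing `T₀` of `E` such that the ends of every edge of `G` are joined by a walk in `T₀`
with at most two edges which are not tame.
-/

namespace Pool.Agent.Results.MP_cc4ad1_lc.LocalCriterion

open SimpleGraph MeasureTheory Pool.Agent.Helper99.Treeing

variable {X : Type*}

/-- `T` is a Borel treeing of `E`: a Borel acyclic graph whose components are the `E`-classes. -/
def IsTreeing [MeasurableSpace X] (E : X → X → Prop) (T : SimpleGraph X) : Prop :=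
  MeasurableSet {q : X × X | T.Adj q.1 q.2} ∧ T.IsAcyclic ∧ ∀ x y, T.Reachable x y ↔ E x y

/-- `u` and `v` lie in a finite set on which both `T` and `G` are connected. -/
def Tame (T G : SimpleGraph X) (u v : X) : Prop :=
  ∃ R : Set X, R.Finite ∧ u ∈ R ∧ v ∈ R ∧ (T.induce R).Connected ∧ (G.induce R).Connected

open Classical in
/-- The ends of every edge of `G` are joined by a walk in `T` with at most two edges that are not
tame. -/
def TwoTame (T G : SimpleGraph X) : Prop :=
  ∀ u v, G.Adj u v → ∃ w : T.Walk u v, w.darts.countP (fun d => ¬ Tame T G d.fst d.snd) ≤ 2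

lemma induce_connected_iff (H : SimpleGraph X) (R : Set X) :
    (H.induce R).Connected ↔ R.Nonempty ∧ ConnOn H R := by
  constructor
  · intro h
    obtain ⟨⟨r, hr⟩⟩ := h.nonempty
    refine ⟨⟨r, hr⟩, ?_⟩
    intro u hu v hv
    let φ : H.induce R →g restr H R :=
      { toFun := Subtype.val
        map_rel' := fun {a b} hab => ⟨hab, a.2, b.2⟩ }
    exact (h.preconnected ⟨u, hu⟩ ⟨v, hv⟩).map φ
  · rintro ⟨⟨r, hr⟩, h⟩
    rw [connected_iff]
    refine ⟨?_, ⟨⟨r, hr⟩⟩⟩
    rintro ⟨u, hu⟩ ⟨v, hv⟩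
    have : v ∈ {w | ∃ hw : w ∈ R, (H.induce R).Reachable ⟨u, hu⟩ ⟨w, hw⟩} := by
      refine reach_closed ?_ (h u hu v hv) ⟨hu, Reachable.refl _⟩
      rintro a b ⟨hab, ha, hb⟩ ⟨_, h1⟩
      refine ⟨hb, h1.trans (Adj.reachable ?_)⟩
      exact hab
    obtain ⟨_, h1⟩ := this
    exact h1

lemma tame_iff (T G : SimpleGraph X) (u v : X) : Tame T G u v ↔ Cov T G u v := by
  constructor
  · rintro ⟨R, h1, h2, h3, h4, h5⟩
    exact ⟨R, h1, h2, h3, ((induce_connected_iff _ _).1 h4).2, ((induce_connected_iff _ _).1 h5).2⟩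
  · rintro ⟨R, h1, h2, h3, h4, h5⟩
    exact ⟨R, h1, h2, h3, (induce_connected_iff _ _).2 ⟨⟨u, h2⟩, h4⟩,
      (induce_connected_iff _ _).2 ⟨⟨u, h2⟩, h5⟩⟩

open Classical in
lemma countP_zero_of_le {T G : SimpleGraph X} (h : T ≤ G) {u v : X} (w : T.Walk u v) :
    w.darts.countP (fun d => ¬ Tame T G d.fst d.snd) = 0 := by
  rw [List.countP_eq_zero]
  intro d _
  have : Tame T G d.fst d.snd := (tame_iff _ _ _ _).2 (Cov.of_adj d.adj (h d.adj))
  simpa using this

theorem result [MeasurableSpace X] [StandardBorelSpace X] (E : X → X → Prop)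
    (f : ℕ → X → X) (hf : ∀ n, Measurable (f n)) (hEf : ∀ x y, E x y ↔ ∃ n, f n x = y)
    (G : SimpleGraph X) (hG : MeasurableSet {q : X × X | G.Adj q.1 q.2})
    (hGE : ∀ x y, G.Reachable x y ↔ E x y) :
    -- (a) a treeing `T₀` with the local property can be moved inside `G`
    (∀ T₀ : SimpleGraph X, IsTreeing E T₀ → TwoTame T₀ G →
      ∃ T : SimpleGraph X, IsTreeing E T ∧ T₀ ⊓ G ≤ T ∧ T ≤ G) ∧
    -- (b) the criterion
    ((∃ T : SimpleGraph X, IsTreeing E T ∧ T ≤ G) ↔
      ∃ T₀ : SimpleGraph X, IsTreeing E T₀ ∧ TwoTame T₀ G) ∧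
    -- (c) a special case
    (open Classical in
    ∀ T₀ : SimpleGraph X, IsTreeing E T₀ →
      (∀ u v, G.Adj u v → ∃ w : T₀.Walk u v,
        w.darts.countP (fun d => ¬ G.Adj d.fst d.snd) ≤ 2) →
      ∃ T : SimpleGraph X, IsTreeing E T ∧ T₀ ⊓ G ≤ T ∧ T ≤ G) := by
  classical
  have ha : ∀ T₀ : SimpleGraph X, IsTreeing E T₀ → TwoTame T₀ G →
      ∃ T : SimpleGraph X, IsTreeing E T ∧ T₀ ⊓ G ≤ T ∧ T ≤ G := by
    rintro T₀ ⟨hT₀m, hac, hr⟩ htame
    have hec : EdgeCond T₀ G := by
      apply edgeCond_of_walk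
      intro u v huv
      obtain ⟨w, hw⟩ := htame u v huv
      refine ⟨w, ?_⟩
      have heq : (fun d : T₀.Dart => decide (¬ Cov T₀ G d.fst d.snd)) =
          fun d : T₀.Dart => decide (¬ Tame T₀ G d.fst d.snd) := by
        funext d
        rw [decide_eq_decide]
        exact not_congr (tame_iff _ _ _ _).symm
      rw [heq]
      convert hw
    have hcov := cov_of_edgeCond hac (fun u v huv => (hGE u v).2 ((hr u v).1 huv.reachable)) hec
    obtain ⟨T, h1, h2, h3, h4, h5⟩ := exists_treeing f hf (G := G) (T₀ := T₀)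
      (measurableSet_setOfPred.1 hG) (measurableSet_setOfPred.1 hT₀m) hac
      (fun u v huv => (hEf u v).1 ((hr u v).1 huv)) hcov
    exact ⟨T, ⟨measurableSet_setOfPred.2 h1, h2, fun x y => (h3 x y).trans (hr x y)⟩, h4, h5⟩
  refine ⟨ha, ⟨?_, ?_⟩, ?_⟩
  · rintro ⟨T, hT, hTG⟩
    refine ⟨T, hT, ?_⟩
    intro u v huv
    have h1 : T.Reachable u v := (hT.2.2 u v).2 ((hGE u v).1 huv.reachable)
    obtain ⟨w⟩ := h1
    exact ⟨w, by rw [countP_zero_of_le hTG w]; omega⟩
  · rintro ⟨T₀, hT₀, h⟩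
    obtain ⟨T, h1, _, h3⟩ := ha T₀ hT₀ h
    exact ⟨T, h1, h3⟩
  · intro T₀ hT₀ h
    refine ha T₀ hT₀ ?_
    intro u v huv
    obtain ⟨w, hw⟩ := h u v huv
    refine ⟨w, le_trans (List.countP_mono_left ?_) hw⟩
    intro d _ hd
    simp only [decide_eq_true_eq] at hd ⊢
    exact fun h' => hd ((tame_iff _ _ _ _).2 (Cov.of_adj d.adj h'))

end Pool.Agent.Results.MP_cc4ad1_lc.LocalCriterion
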