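import Pool.Agent.Helper3.TD.Borel

/-!
# MP_cc4ad1_lc: graphings with a tree decomposition of adhesion two

`X` is a standard Borel space, `E` is a countable Borel equivalence relation on `X`, given (as is
always possible by the Lusin-Novikov theorem) by countably many Borel maps `f n : X → X` with
`E x y ↔ ∃ n, f n x = y`, and `T₀` is a Borel treeing of `E`.

A Borel tree decomposition of a Borel graphing `G` of `E` has a Borel forest `S` on a standard
Borel space `Y` of nodes, and every node `y` has a finite nonempty part `{x | In x y}`; neighbouring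
parts have at most two common points, which are adjacent in `G` if there are two. So `G` is a
tree-like gluing of finite graphs along single edges and single points. No condition is put on the degrees or on the Borel chromatic
number of `G` (a point may lie in infinitely many parts).
-/

namespace Pool.Agent.Results.MP_cc4ad1_lc.TreeDecomposition

open SimpleGraph MeasureTheory Pool.Agent.Helper3.TD

variable {X Y : Type*}

/-- `T` is a Borel treeing of `E`: a Borel acyclic graph whose components are the `E`-classes. -/
def IsTreeing [MeasurableSpace X] (E : X → X → Prop) (T : SimpleGraph X) : Prop :=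
  MeasurableSet {q : X × X | T.Adj q.1 q.2} ∧ T.IsAcyclic ∧ ∀ x y, T.Reachable x y ↔ E x y

/-- A Borel tree decomposition, over every `E`-class, into finite parts `{x | In x y}`, such that
neighbouring parts have at most two common points, and two common points are adjacent in `G`. -/
structure BorelTreeDecomposition [MeasurableSpace X] [MeasurableSpace Y] (E : X → X → Prop)
    (G : SimpleGraph X) (S : SimpleGraph Y) (In : X → Y → Prop) : Prop where
  /-- `S` is Borel. -/
  borel : MeasurableSet {q : Y × Y | S.Adj q.1 q.2}
  /-- `S` is a forest. -/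
  acyclic : S.IsAcyclic
  /-- every point lies in countably many parts, enumerated by Borel maps -/
  enum : ∃ g : ℕ → X → Y, (∀ n, Measurable (g n)) ∧ ∀ x y, In x y ↔ ∃ n, g n x = y
  /-- the parts are finite -/
  finite : ∀ y, {x | In x y}.Finite
  /-- the parts are not empty -/
  nonempty : ∀ y, ∃ x, In x y
  /-- equal or neighbouring parts lie in one `E`-class -/
  sameClass : ∀ x x' y y', In x y → In x' y' → (y = y' ∨ S.Adj y y') → E x x'
  /-- every edge of `G` lies in a part -/
  edge : ∀ u v, G.Adj u v → ∃ y, In u y ∧ In v y
  /-- the nodes whose parts contain a given point form a subtree -/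
  subtree : ∀ x, (S.induce {y | In x y}).Connected
  /-- neighbouring parts have at most two common points -/
  adhesion : ∀ y z, S.Adj y z → {x | In x y ∧ In x z}.encard ≤ 2
  /-- two different common points of neighbouring parts are adjacent in `G` -/
  adjacent : ∀ y z, S.Adj y z → ∀ u v, In u y → In u z → In v y → In v z → u ≠ v → G.Adj u v

lemma three_points {A : Set X} (h : A.encard ≤ 2) {a b c : X} (ha : a ∈ A) (hb : b ∈ A)
    (hc : c ∈ A) : a = b ∨ b = c ∨ a = c := by
  by_contra hcon
  push Not at hcon
  obtain ⟨h1, h2, h3⟩ := hcon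
  have h4 : ({a, b, c} : Set X) ⊆ A := by
    rintro x (rfl | rfl | rfl)
    · exact ha
    · exact hb
    · exact hc
  have h5 : ({a, b, c} : Set X).encard = 3 := Set.encard_eq_three.2 ⟨a, b, c, h1, h3, h2, rfl⟩
  have h6 := (Set.encard_le_encard h4).trans h
  rw [h5] at h6
  exact absurd h6 (by decide)

theorem result [MeasurableSpace X] [StandardBorelSpace X] [MeasurableSpace Y]
    [StandardBorelSpace Y] (E : X → X → Prop) (f : ℕ → X → X) (hf : ∀ n, Measurable (f n))
    (hEf : ∀ x y, E x y ↔ ∃ n, f n x = y)
    (T₀ : SimpleGraph X) (hT₀ : IsTreeing E T₀)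
    (G : SimpleGraph X) (hG : MeasurableSet {q : X × X | G.Adj q.1 q.2})
    (hGE : ∀ x y, G.Reachable x y ↔ E x y)
    (S : SimpleGraph Y) (In : X → Y → Prop) (hS : BorelTreeDecomposition E G S In) :
    ∃ T : SimpleGraph X, IsTreeing E T ∧ T₀ ⊓ G ≤ T ∧ T ≤ G := by
  obtain ⟨g, hg, hIn⟩ := hS.enum
  let P : Data X Y := ⟨G, T₀, S, In, embeddingReal X⟩
  have hOk : P.Ok :=
    { hT₀ := hT₀.2.1
      hS := hS.acyclic
      hconn := fun x => (hS.subtree x).preconnected
      hedge := hS.edge
      hfin := hS.finite
      hadh := fun y z hyz a b c h1 h2 h3 h4 h5 h6 =>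
        three_points (hS.adhesion y z hyz) ⟨h1, h2⟩ ⟨h3, h4⟩ ⟨h5, h6⟩
      hreach := fun u v => (hGE u v).trans (hT₀.2.2 u v).symm
      hψ := (measurableEmbedding_embeddingReal X).injective }
  have hBor : P.Bor f g :=
    { hf := hf
      hE := fun x y h => (hEf x y).1 ((hGE x y).1 h)
      hg := hg
      hIn := hIn
      hG := measurableSet_setOfPred.1 hG
      hT₀ := measurableSet_setOfPred.1 hT₀.1
      hS := measurableSet_setOfPred.1 hS.borel
      hψ := (measurableEmbedding_embeddingReal X).measurable
      hne := hS.nonempty
      hcl := fun x x' y y' h1 h2 h3 => (hGE x x').2 (hS.sameClass x x' y y' h1 h2 h3) }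
  have hmeas : MeasurableSet {q : X × X | P.T.Adj q.1 q.2} :=
    measurableSet_setOfPred.2 (Data.measurable_T hOk hBor)
  have hreach : ∀ x y, P.T.Reachable x y ↔ E x y := by
    intro x y
    rw [← hGE x y]
    constructor
    · intro h
      exact h.mono Data.T_le
    · intro h
      exact reach_of_adj (H := G) (fun a b hab => Data.T_reach hOk hab) h
  exact ⟨P.T, ⟨hmeas, Data.T_acyclic hOk hS.adjacent, hreach⟩, Data.inf_le_T hOk, Data.T_le⟩

end Pool.Agent.Results.MP_cc4ad1_lc.TreeDecomposition
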